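import Mathlib

namespace Pool.Agent.Results.MP_8b2dc5_pr.NotDominates

open SimpleGraph

/-- `H` is a tree of order `k` in `G`: a subgraph that is a tree with exactly `k` vertices. -/
def IsTreeOf {V : Type} {G : SimpleGraph V} (H : G.Subgraph) (k : ℕ) : Prop :=
  H.coe.IsTree ∧ H.verts.ncard = k

/-- The edges of `H` carry pairwise distinct colours. -/
def Rainbow {V : Type} {G : SimpleGraph V} {c : ℕ} (col : G.edgeSet → Fin c) (H : G.Subgraph) :
    Prop :=
  ∀ e e' : G.edgeSet, e.1 ∈ H.edgeSet → e'.1 ∈ H.edgeSet → col e = col e' → e = e'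

/-- Number of rainbow trees of order `k` under the colouring `col`. -/
noncomputable def T {V : Type} (G : SimpleGraph V) (k : ℕ) {c : ℕ} (col : G.edgeSet → Fin c) : ℕ :=
  Set.ncard {H : G.Subgraph | IsTreeOf H k ∧ Rainbow col H}

/-- `Pr(T(c,k) ≥ t)` under a uniform random `c`-colouring of the edges. -/
noncomputable def tail {V : Type} (G : SimpleGraph V) (c k : ℕ) (t : ℝ) : ℝ :=
  (Set.ncard {col : G.edgeSet → Fin c | t ≤ (T G k col : ℝ)} : ℝ) /
    (Nat.card (G.edgeSet → Fin c) : ℝ)

lemma path_tree {V : Type} [Finite V] {G : SimpleGraph V} {u v : V} (p : G.Walk u v)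
    (hp : p.IsPath) : IsTreeOf p.toSubgraph (p.length + 1) := by
  classical
  have hv : p.toSubgraph.verts.ncard = p.length + 1 := by
    rw [Walk.verts_toSubgraph]
    have : {w | w ∈ p.support} = (p.support.toFinset : Set V) := by ext; simp
    rw [this, Set.ncard_coe_finset, List.toFinset_card_of_nodup hp.support_nodup,
      Walk.length_support]
  have he : p.toSubgraph.edgeSet.ncard = p.length := by
    have : p.toSubgraph.edgeSet = (p.edges.toFinset : Set (Sym2 V)) := by
      ext e; simp [Walk.mem_edges_toSubgraph]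
    rw [this, Set.ncard_coe_finset, List.toFinset_card_of_nodup hp.isTrail.edges_nodup,
      Walk.length_edges]
  refine ⟨?_, hv⟩
  rw [isTree_iff_connected_and_card]
  refine ⟨p.toSubgraph_connected.coe, ?_⟩
  have h1 : Nat.card p.toSubgraph.coe.edgeSet = p.toSubgraph.edgeSet.ncard := by
    rw [← Subgraph.image_coe_edgeSet_coe,
      Set.ncard_image_of_injective _ (Sym2.map.injective Subtype.val_injective)]
    rfl
  have h2 : Nat.card p.toSubgraph.verts = p.toSubgraph.verts.ncard := rfl
  rw [h1, h2, he, hv]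

lemma path5 {V : Type} [Finite V] {G : SimpleGraph V} (v0 v1 v2 v3 v4 : V)
    (h01 : G.Adj v0 v1) (h12 : G.Adj v1 v2) (h23 : G.Adj v2 v3) (h34 : G.Adj v3 v4)
    (n02 : v0 ≠ v2) (n03 : v0 ≠ v3) (n04 : v0 ≠ v4) (n13 : v1 ≠ v3) (n14 : v1 ≠ v4)
    (n24 : v2 ≠ v4) :
    ∃ H : G.Subgraph, IsTreeOf H 5 ∧ s(v0, v1) ∈ H.edgeSet ∧ s(v1, v2) ∈ H.edgeSet ∧
      s(v2, v3) ∈ H.edgeSet ∧ s(v3, v4) ∈ H.edgeSet := by
  let w : G.Walk v0 v4 := .cons h01 (.cons h12 (.cons h23 (.cons h34 .nil)))
  have hw : w.IsPath := by
    rw [Walk.isPath_def]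
    simp [w, h01.ne, h12.ne, h23.ne, h34.ne, n02, n03, n04, n13, n14, n24]
  refine ⟨w.toSubgraph, path_tree w hw, ?_, ?_, ?_, ?_⟩ <;>
    rw [Walk.mem_edges_toSubgraph] <;> simp [w]

section Plane

variable (F : Type) [Field F]

/-- Incidence graph of the affine plane over `F` without its vertical lines. -/
def BG : SimpleGraph ((F × F) ⊕ (F × F)) where
  Adj u v := match u, v with
    | .inl p, .inr l => p.2 = l.1 * p.1 + l.2
    | .inr l, .inl p => p.2 = l.1 * p.1 + l.2
    | _, _ => False
  symm := ⟨by rintro (u | u) (v | v) h <;> simp_all⟩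
  loopless := ⟨by rintro (u | u) h <;> simp_all⟩

variable {F}

@[simp] lemma adj_lr (p l : F × F) : (BG F).Adj (.inl p) (.inr l) ↔ p.2 = l.1 * p.1 + l.2 := Iff.rfl
@[simp] lemma adj_rl (p l : F × F) : (BG F).Adj (.inr l) (.inl p) ↔ p.2 = l.1 * p.1 + l.2 := Iff.rfl
@[simp] lemma adj_ll (p l : F × F) : ¬ (BG F).Adj (.inl l) (.inl p) := fun h => h
@[simp] lemma adj_rr (p l : F × F) : ¬ (BG F).Adj (.inr l) (.inr p) := fun h => h

def ed (a : (F × F) × F) : (BG F).edgeSet :=
  ⟨s(.inl (a.1.1, a.1.2 * a.1.1 + a.2), .inr (a.1.2, a.2)), by simp⟩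

lemma ed_bij : Function.Bijective (ed (F := F)) := by
  constructor
  · rintro ⟨⟨x, s⟩, b⟩ ⟨⟨x', s'⟩, b'⟩ h
    simp only [ed, Subtype.mk.injEq, Sym2.eq_iff] at h
    simp_all
  · rintro ⟨e, he⟩
    induction e using Sym2.ind with
    | h u v =>
      rcases u with ⟨x, y⟩ | ⟨s, b⟩ <;> rcases v with ⟨x', y'⟩ | ⟨s', b'⟩
      · simp at he
      · refine ⟨((x, s'), b'), ?_⟩
        simp at he
        simp [ed, he]
      · refine ⟨((x', s), b), ?_⟩
        simp at he
        simp [ed, he]
      · simp at he

lemma close [Finite F] (x s b x' s' b' : F) (h : (x, s) ≠ (x', s')) :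
    ∃ H : (BG F).Subgraph, IsTreeOf H 5 ∧ (ed ((x, s), b)).1 ∈ H.edgeSet ∧
      (ed ((x', s'), b')).1 ∈ H.edgeSet := by
  simp only [ed]
  by_cases hx : x = x'
  · subst hx
    have hs : s ≠ s' := fun h' => h (by rw [h'])
    have hs' : s - s' ≠ 0 := sub_ne_zero.mpr hs
    by_cases hy : s * x + b = s' * x + b'
    · obtain ⟨H, hH, h1, h2, -, -⟩ := path5 (G := BG F) (.inr (s, b)) (.inl (x, s * x + b))
        (.inr (s', b')) (.inl (x + 1, s' * (x + 1) + b'))
        (.inr (s, s' * (x + 1) + b' - s * (x + 1))) (by simp) (by simp [hy]) (by simp) (by simp)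
        (by simp [hs]) (by simp) (by
          simp only [ne_eq, Sum.inr.injEq, Prod.mk.injEq, true_and]
          intro h'
          apply hs
          linear_combination h' - hy) (by simp) (by simp) (by simp [hs.symm])
      refine ⟨H, hH, ?_, ?_⟩
      · rw [Sym2.eq_swap]; exact h1
      · rw [← hy]; exact h2
    · obtain ⟨H, hH, h1, -, -, h2⟩ := path5 (G := BG F) (.inl (x, s * x + b)) (.inr (s, b))
        (.inl ((b' - b) / (s - s'), s * ((b' - b) / (s - s')) + b)) (.inr (s', b'))
        (.inl (x, s' * x + b')) (by simp) (by simp) (by simp; field_simp; ring) (by simp)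
        (by
          simp only [ne_eq, Sum.inl.injEq, Prod.mk.injEq, not_and]
          intro h' _
          apply hy
          field_simp at h'
          linear_combination h') (by simp) (by simp [hy]) (by simp [hs]) (by simp)
        (by
          simp only [ne_eq, Sum.inl.injEq, Prod.mk.injEq, not_and]
          intro h' _
          apply hy
          field_simp at h'
          linear_combination -h')
      refine ⟨H, hH, h1, ?_⟩
      rw [Sym2.eq_swap]; exact h2
  · have hx' : x - x' ≠ 0 := sub_ne_zero.mpr hx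
    by_cases h1 : s * x' + b = s' * x' + b'
    · by_cases h2 : s * x + b = s' * x + b'
      · have hs : s = s' := by
          have : (s - s') * (x - x') = 0 := by linear_combination h2 - h1
          rcases mul_eq_zero.mp this with h | h
          · exact sub_eq_zero.mp h
          · exact absurd h hx'
        subst hs
        have hb : b = b' := by linear_combination h1
        subst hb
        obtain ⟨H, hH, g1, g2, -, -⟩ := path5 (G := BG F) (.inl (x, s * x + b)) (.inr (s, b))
          (.inl (x', s * x' + b)) (.inr (s + 1, b - x')) (.inl (x, (s + 1) * x + (b - x')))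
          (by simp) (by simp) (by simp; ring) (by simp) (by simp [hx]) (by simp)
          (by
            simp only [ne_eq, Sum.inl.injEq, Prod.mk.injEq, true_and]
            intro h'
            apply hx
            linear_combination -h') (by simp) (by simp) (by simp [Ne.symm hx])
        refine ⟨H, hH, g1, ?_⟩
        rw [Sym2.eq_swap]; exact g2
      · obtain ⟨H, hH, g1, -, g2, -⟩ := path5 (G := BG F) (.inl (x, s * x + b)) (.inr (s, b))
          (.inl (x', s' * x' + b')) (.inr (s', b')) (.inl (x, s' * x + b'))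
          (by simp) (by simp [h1]) (by simp) (by simp) (by simp [hx]) (by simp)
          (by simp [h2]) (by
            simp only [ne_eq, Sum.inr.injEq, Prod.mk.injEq, not_and]
            rintro rfl rfl
            exact h2 rfl) (by simp) (by simp [Ne.symm hx])
        exact ⟨H, hH, g1, g2⟩
    · by_cases h2 : s * x + b = s' * x + b'
      · obtain ⟨H, hH, g1, -, g2, -⟩ := path5 (G := BG F) (.inl (x', s' * x' + b'))
          (.inr (s', b')) (.inl (x, s * x + b)) (.inr (s, b)) (.inl (x', s * x' + b))
          (by simp) (by simp [h2]) (by simp) (by simp) (by simp [Ne.symm hx]) (by simp)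
          (by simp [Ne.symm h1]) (by
            simp only [ne_eq, Sum.inr.injEq, Prod.mk.injEq, not_and]
            rintro rfl rfl
            exact h1 rfl) (by simp) (by simp [hx])
        exact ⟨H, hH, g2, g1⟩
      · obtain ⟨m, hm⟩ : ∃ m : F, m * (x - x') = (s * x + b) - (s' * x' + b') :=
          ⟨((s * x + b) - (s' * x' + b')) / (x - x'), by field_simp⟩
        obtain ⟨H, hH, g1, -, -, g2⟩ := path5 (G := BG F) (.inr (s, b)) (.inl (x, s * x + b))
          (.inr (m, s * x + b - m * x)) (.inl (x', s' * x' + b')) (.inr (s', b'))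
          (by simp) (by simp) (by simp; linear_combination hm) (by simp)
          (by
            simp only [ne_eq, Sum.inr.injEq, Prod.mk.injEq, not_and]
            rintro rfl _
            apply h1
            linear_combination -hm) (by simp)
          (by
            simp only [ne_eq, Sum.inr.injEq, Prod.mk.injEq, not_and]
            rintro rfl rfl
            exact h1 rfl) (by simp [hx]) (by simp)
          (by
            simp only [ne_eq, Sum.inr.injEq, Prod.mk.injEq, not_and]
            rintro rfl h'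
            apply h2
            linear_combination h')
        refine ⟨H, hH, ?_, g2⟩
        rw [Sym2.eq_swap]; exact g1

lemma far [Finite F] (x s b b' : F) (H : (BG F).Subgraph) (hH : IsTreeOf H 5)
    (h1 : (ed ((x, s), b)).1 ∈ H.edgeSet) (h2 : (ed ((x, s), b')).1 ∈ H.edgeSet) : b = b' := by
  classical
  by_contra hb
  simp only [ed, Subgraph.mem_edgeSet] at h1 h2
  have m1 := H.edge_vert h1
  have m2 := H.edge_vert h1.symm
  have m3 := H.edge_vert h2
  have m4 := H.edge_vert h2.symm
  set p : (F × F) ⊕ (F × F) := .inl (x, s * x + b) with hp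
  set l : (F × F) ⊕ (F × F) := .inr (s, b) with hl
  set p' : (F × F) ⊕ (F × F) := .inl (x, s * x + b') with hp'
  set l' : (F × F) ⊕ (F × F) := .inr (s, b') with hl'
  have hsub : ({p, l, p', l'} : Set _) ⊆ H.verts := by
    intro v hv
    simp only [Set.mem_insert_iff, Set.mem_singleton_iff] at hv
    rcases hv with rfl | rfl | rfl | rfl <;> assumption
  have hc4 : ({p, l, p', l'} : Set ((F × F) ⊕ (F × F))).ncard = 4 := by
    rw [Set.ncard_insert_of_notMem (by simp [hp, hl, hp', hl', hb]),
      Set.ncard_insert_of_notMem (by simp [hl, hp', hl', hb]),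
      Set.ncard_pair (by simp [hp', hl'])]
  have hd : (H.verts \ {p, l, p', l'}).ncard = 1 := by
    rw [Set.ncard_sdiff hsub, hH.2, hc4]
  obtain ⟨w, hw⟩ := Set.ncard_eq_one.mp hd
  have hall : ∀ v ∈ H.verts, v = p ∨ v = l ∨ v = p' ∨ v = l' ∨ v = w := by
    intro v hv
    by_contra hn
    push Not at hn
    have : v ∈ H.verts \ {p, l, p', l'} := ⟨hv, by simp [hn]⟩
    rw [hw] at this
    exact hn.2.2.2.2 this
  have hw' : w ∈ H.verts \ {p, l, p', l'} := by rw [hw]; rfl
  have hwn := hw'.2
  simp only [Set.mem_insert_iff, Set.mem_singleton_iff, not_or] at hwn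
  let U : ((F × F) ⊕ (F × F)) → Prop := fun v =>
    v = p ∨ v = l ∨ (v = w ∧ ((BG F).Adj p w ∨ (BG F).Adj l w))
  have hcl : ∀ u v, U u → v ∈ H.verts → (BG F).Adj u v → U v := by
    intro u v hu hv huv
    rcases hall v hv with rfl | rfl | rfl | rfl | rfl
    · exact Or.inl rfl
    · exact Or.inr (Or.inl rfl)
    · exfalso
      rcases hu with rfl | rfl | ⟨rfl, h | h⟩
      · simp [hp, hp'] at huv
      · simp [hl, hp'] at huv; exact hb huv.symm
      · rcases u with u | u
        · simp [hp] at h
        · simp [hp, hp'] at h huv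
          apply hb; linear_combination h - huv
      · rcases u with u | u
        · simp [hp'] at huv
        · simp [hl] at h
    · exfalso
      rcases hu with rfl | rfl | ⟨rfl, h | h⟩
      · simp [hp, hl'] at huv; exact hb huv
      · simp [hl, hl'] at huv
      · rcases u with u | u
        · simp [hp] at h
        · simp [hl'] at huv
      · rcases u with u | u
        · simp [hl, hl'] at h huv
          apply hb; linear_combination huv - h
        · simp [hl] at h
    · rcases hu with rfl | rfl | ⟨rfl, h⟩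
      · exact Or.inr (Or.inr ⟨rfl, Or.inl huv⟩)
      · exact Or.inr (Or.inr ⟨rfl, Or.inr huv⟩)
      · exact absurd huv (BG F).irrefl
  have hwalk : ∀ (a c : H.verts) (q : H.coe.Walk a c), U a.1 → U c.1 := by
    intro a c q
    induction q with
    | nil => exact id
    | cons h q ih =>
      intro hu
      exact ih (hcl _ _ hu (Subtype.prop _) (H.adj_sub h))
  obtain ⟨q⟩ := hH.1.connected.preconnected ⟨p, m1⟩ ⟨p', m3⟩
  rcases hwalk _ _ q (Or.inl rfl) with h | h | ⟨h, -⟩
  · simp [hp, hp'] at h; exact hb h.symm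
  · simp [hl, hp'] at h
  · exact hwn.2.2.1 h.symm

end Plane

/-- Proper colourings of the complete multipartite graph on `I × J` with parts `{i} × J`. -/
def A (I J : Type) (c : ℕ) : Set (I × J → Fin c) :=
  {φ | ∀ i i' j j', i ≠ i' → φ (i, j) ≠ φ (i', j')}

lemma A_lower (I J : Type) [Fintype I] [Fintype J] (j0 : J) :
    (Fintype.card I).factorial ≤ (A I J (Fintype.card I)).ncard := by
  classical
  let g : (I ↪ Fin (Fintype.card I)) → (I × J → Fin (Fintype.card I)) := fun f a => f a.1
  have hg : Function.Injective g := by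
    intro f f' h
    ext i
    have := congrFun h (i, j0)
    simp only [g] at this
    rw [this]
  have hsub : g '' Set.univ ⊆ A I J (Fintype.card I) := by
    rintro _ ⟨f, -, rfl⟩ i i' j j' hi h
    exact hi (f.injective h)
  have := Set.ncard_le_ncard hsub (Set.toFinite _)
  rw [Set.ncard_image_of_injective _ hg, Set.ncard_univ, Nat.card_eq_fintype_card,
    Fintype.card_embedding_eq, Fintype.card_fin, Nat.descFactorial_self] at this
  exact this

lemma A_upper (I J : Type) [Fintype I] [Fintype J] (i1 : I) (j0 : J) :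
    (A I J (Fintype.card I + 1)).ncard ≤ (Fintype.card I + 1).factorial *
      (Fintype.card I * (2 ^ Fintype.card J * (Fintype.card I + 1))) := by
  classical
  let g : (I ↪ Fin (Fintype.card I + 1)) × I × (J → Bool) × Fin (Fintype.card I + 1) →
      (I × J → Fin (Fintype.card I + 1)) :=
    fun d a => if a.1 = d.2.1 ∧ d.2.2.1 a.2 = true then d.2.2.2 else d.1 a.1
  have hsub : A I J (Fintype.card I + 1) ⊆ g '' Set.univ := by
    intro φ hφ
    let f : I ↪ Fin (Fintype.card I + 1) := ⟨fun i => φ (i, j0), fun i i' h => by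
      by_contra hi
      exact hφ i i' j0 j0 hi h⟩
    have hf : ∀ i, f i = φ (i, j0) := fun _ => rfl
    have hmiss : ∀ a b, (∀ i, a ≠ f i) → (∀ i, b ≠ f i) → a = b := by
      intro a b ha hb
      by_contra hab
      have h1 : (insert a (insert b (Finset.univ.map f))).card = Fintype.card I + 2 := by
        rw [Finset.card_insert_of_notMem, Finset.card_insert_of_notMem, Finset.card_map,
          Finset.card_univ]
        · simp only [Finset.mem_map, Finset.mem_univ, true_and, not_exists]
          exact fun i h => hb i h.symm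
        · simp only [Finset.mem_insert, Finset.mem_map, Finset.mem_univ, true_and, not_or,
            not_exists]
          exact ⟨hab, fun i h => ha i h.symm⟩
      have h2 := Finset.card_le_univ (insert a (insert b (Finset.univ.map f)))
      rw [h1, Fintype.card_fin] at h2
      omega
    have hout : ∀ i j, φ (i, j) ≠ f i → ∀ i', φ (i, j) ≠ f i' := by
      intro i j h i'
      by_cases hi : i = i'
      · subst hi; exact h
      · exact hφ i i' j j0 hi
    by_cases h : ∃ i j, φ (i, j) ≠ f i
    · obtain ⟨i0, j1, h⟩ := h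
      refine ⟨(f, i0, fun j => decide (φ (i0, j) ≠ f i0), φ (i0, j1)), trivial, ?_⟩
      funext ⟨i, j⟩
      simp only [g, decide_eq_true_eq]
      split_ifs with hc
      · obtain ⟨rfl, hc⟩ := hc
        exact hmiss _ _ (hout _ _ h) (hout _ _ hc)
      · by_contra hne
        have hne' : φ (i, j) ≠ f i := fun h' => hne h'.symm
        have e := hmiss _ _ (hout _ _ h) (hout _ _ hne')
        by_cases hi : i = i0
        · subst hi; exact hc ⟨rfl, hne'⟩
        · exact hφ i0 i j1 j (Ne.symm hi) e
    · push Not at h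
      refine ⟨(f, i1, fun _ => false, 0), trivial, ?_⟩
      funext ⟨i, j⟩
      simp [g, h]
  have h1 := Set.ncard_le_ncard hsub (Set.toFinite _)
  have h2 := Set.ncard_image_le (f := g) (s := Set.univ) (Set.toFinite _)
  rw [Set.ncard_univ, Nat.card_eq_fintype_card, Fintype.card_prod, Fintype.card_prod,
    Fintype.card_prod, Fintype.card_embedding_eq, Fintype.card_fin, Fintype.card_fun,
    Fintype.card_bool] at h2
  have h3 : (Fintype.card I + 1).descFactorial (Fintype.card I) =
      (Fintype.card I + 1).factorial := by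
    rw [← Nat.descFactorial_self, Nat.descFactorial_succ]
    simp
  rw [h3] at h2
  exact h1.trans h2

lemma count (F : Type) [Field F] [Finite F] (c : ℕ) :
    Set.ncard {col : (BG F).edgeSet → Fin c |
      ((Set.ncard {H : (BG F).Subgraph | IsTreeOf H 5} : ℕ) : ℝ) ≤ (T (BG F) 5 col : ℝ)} =
      (A (F × F) F c).ncard := by
  let E : (F × F) × F ≃ (BG F).edgeSet := Equiv.ofBijective _ ed_bij
  have hE : ∀ a, E a = ed a := fun _ => rfl
  let g : ((BG F).edgeSet → Fin c) → ((F × F) × F → Fin c) := fun col a => col (E a)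
  have hg : Function.Injective g := by
    intro col col' h
    funext e
    have := congrFun h (E.symm e)
    simpa [g] using this
  rw [← Set.ncard_image_of_injective _ hg]
  congr 1
  ext φ
  constructor
  · rintro ⟨col, hcol, rfl⟩
    simp only [Set.mem_ofPred_eq, Nat.cast_le, T] at hcol
    have heq := Set.eq_of_subset_of_ncard_le
      (s := {H : (BG F).Subgraph | IsTreeOf H 5 ∧ Rainbow col H})
      (t := {H : (BG F).Subgraph | IsTreeOf H 5}) (fun H h => h.1) hcol (Set.toFinite _)
    rintro ⟨x, s⟩ ⟨x', s'⟩ b b' hi h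
    obtain ⟨H, hH, h1, h2⟩ := close x s b x' s' b' hi
    have hm : H ∈ {H : (BG F).Subgraph | IsTreeOf H 5} := hH
    rw [← heq] at hm
    have := ed_bij.1 (hm.2 _ _ h1 h2 h)
    exact hi (congrArg Prod.fst this)
  · intro hφ
    refine ⟨fun e => φ (E.symm e), ?_, by funext a; simp [g]⟩
    simp only [Set.mem_ofPred_eq, Nat.cast_le, T]
    apply Set.ncard_le_ncard _ (Set.toFinite _)
    intro H hH
    refine ⟨hH, fun e e' he he' h => ?_⟩
    obtain ⟨⟨⟨x, s⟩, b⟩, rfl⟩ := E.surjective e
    obtain ⟨⟨⟨x', s'⟩, b'⟩, rfl⟩ := E.surjective e'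
    simp only [Equiv.symm_apply_apply] at h
    have hi : (x, s) = (x', s') := by
      by_contra hi
      exact hφ _ _ b b' hi h
    obtain ⟨rfl, rfl⟩ := Prod.mk.inj hi
    rw [far x s b b' H hH he he']

lemma total (F : Type) [Field F] [Fintype F] (c : ℕ) :
    Nat.card ((BG F).edgeSet → Fin c) = c ^ (Fintype.card (F × F) * Fintype.card F) := by
  rw [Nat.card_fun, ← Nat.card_eq_of_bijective _ (ed_bij (F := F))]
  simp

lemma big : (7921 + 1) * (7921 * (2 ^ 89 * (7921 + 1))) * 7921 ^ (7921 * 89) <
    (7921 + 1) ^ (7921 * 89) := by decide +kernel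

lemma fin_ineq (r q m a b : ℕ) (hr : 0 < r)
    (h : (r + 1) * (r * (2 ^ q * (r + 1))) * r ^ m < (r + 1) ^ m)
    (ha : a ≤ (r + 1).factorial * (r * (2 ^ q * (r + 1)))) (hb : r.factorial ≤ b) :
    (a : ℝ) / (((r + 1) ^ m : ℕ) : ℝ) < (b : ℝ) / ((r ^ m : ℕ) : ℝ) := by
  rw [div_lt_div_iff₀ (by positivity) (by positivity)]
  have key : a * r ^ m < b * (r + 1) ^ m := by
    calc a * r ^ m ≤ (r + 1).factorial * (r * (2 ^ q * (r + 1))) * r ^ m :=
          Nat.mul_le_mul_right _ ha
      _ = r.factorial * ((r + 1) * (r * (2 ^ q * (r + 1))) * r ^ m) := by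
          rw [Nat.factorial_succ]; ring
      _ < r.factorial * (r + 1) ^ m := Nat.mul_lt_mul_of_pos_left h (Nat.factorial_pos r)
      _ ≤ b * (r + 1) ^ m := Nat.mul_le_mul_right _ hb
  exact_mod_cast key

instance : Fact (Nat.Prime 89) := ⟨by norm_num⟩

theorem result : ∃ (V : Type) (_ : Finite V) (G : SimpleGraph V) (k c c' : ℕ) (t : ℝ),
    1 ≤ k ∧ 1 ≤ c' ∧ c' ≤ c ∧ tail G c k t < tail G c' k t := by
  have h1 : Fintype.card (ZMod 89) = 89 := ZMod.card 89
  have h2 : Fintype.card (ZMod 89 × ZMod 89) = 7921 := by rw [Fintype.card_prod, h1]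
  refine ⟨_, inferInstance, BG (ZMod 89), 5, 7921 + 1, 7921,
    ((Set.ncard {H : (BG (ZMod 89)).Subgraph | IsTreeOf H 5} : ℕ) : ℝ), by norm_num, by norm_num,
    by norm_num, ?_⟩
  unfold tail
  rw [count, count, total, total, h1, h2]
  have hl := A_lower (ZMod 89 × ZMod 89) (ZMod 89) 0
  have hu := A_upper (ZMod 89 × ZMod 89) (ZMod 89) 0 0
  rw [h2] at hl
  rw [h2, h1] at hu
  exact fin_ineq 7921 89 (7921 * 89) _ _ (by norm_num) big hu hl

end Pool.Agent.Results.MP_8b2dc5_pr.NotDominates
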